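import Pool.Agent.Work.MP_9cc08e_co.Link

set_option autoImplicit false

open Polynomial

namespace Pool.Agent.Work.MP_9cc08e_co

attribute [local irreducible] tt words0 words1 words2 words3 words4 words5 words6 words7 wordsB
  allWords

/-- Normalised version of the main combinatorial statement. -/
theorem badNormal (a b : ℕ → Bool) (ha : Normal a) (hb : Normal b)
    (ha0 : ¬ ∀ d, d < 25 → a d = false) (hb0 : ¬ ∀ d, d < 25 → b d = false)
    (hab : ¬ ∀ d, d < 25 → a d = b d) :
    ∃ c ∈ C, ∀ j : ZMod 25, c j = 1 ∨ fn a c j = 1 ∨ fn b c j = 1 := by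
  rcases stepA a ha with hsa | ⟨m, hm, h⟩
  · rcases stepA b hb with hsb | ⟨m, hm, h⟩
    · rcases stepB a b ha hb hsa hsb with h | h | h | ⟨m, hm, h⟩
      · exact absurd h ha0
      · exact absurd h hb0
      · exact absurd h hab
      · exact ⟨wv m, wv_mem_C (valid_of_mem hm), bad2_wv h⟩
    · refine ⟨wv m, wv_mem_C (valid_of_mem hm), fun j => ?_⟩
      rcases bad1_wv h j with h1 | h1
      · exact Or.inl h1
      · exact Or.inr (Or.inr h1)
  · refine ⟨wv m, wv_mem_C (valid_of_mem hm), fun j => ?_⟩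
    rcases bad1_wv h j with h1 | h1
    · exact Or.inl h1
    · exact Or.inr (Or.inl h1)

theorem ofB_ne (x : ZMod 2) : ofB (decide (x ≠ 0)) = x := by
  revert x
  decide

theorem val_add_mod (i : ZMod 25) : (i + 5).val % 5 = i.val % 5 ∧ (i + 10).val % 5 = i.val % 5 ∧
    (i + 15).val % 5 = i.val % 5 ∧ (i + 20).val % 5 = i.val % 5 := by
  revert i
  decide

/-- Row-constant functionals vanish on `C`. -/
theorem sum_row_const (κ : ℕ → ZMod 2) {c : V} (hc : c ∈ C) (j : ZMod 25) :
    ∑ i : ZMod 25, κ (i.val % 5) * c (i + j) = 0 := by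
  have e : ∀ t : ZMod 25, (∀ i : ZMod 25, (i + t).val % 5 = i.val % 5) →
      ∑ i : ZMod 25, κ (i.val % 5) * c (i + j) =
        ∑ i : ZMod 25, κ (i.val % 5) * c (i + j + t) := by
    intro t ht
    rw [← Equiv.sum_comp (Equiv.addRight t) (fun i : ZMod 25 => κ (i.val % 5) * c (i + j))]
    refine Finset.sum_congr rfl ?_
    intro i _
    rw [Equiv.coe_addRight, ht i]
    congr 2
    ring
  have e5 := e 5 (fun i => (val_add_mod i).1)
  have e10 := e 10 (fun i => (val_add_mod i).2.1)
  have e15 := e 15 (fun i => (val_add_mod i).2.2.1)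
  have e20 := e 20 (fun i => (val_add_mod i).2.2.2)
  have hsum : ∑ i : ZMod 25, κ (i.val % 5) * c (i + j) +
      ∑ i : ZMod 25, κ (i.val % 5) * c (i + j + 5) +
      ∑ i : ZMod 25, κ (i.val % 5) * c (i + j + 10) +
      ∑ i : ZMod 25, κ (i.val % 5) * c (i + j + 15) +
      ∑ i : ZMod 25, κ (i.val % 5) * c (i + j + 20) = 0 := by
    rw [← Finset.sum_add_distrib, ← Finset.sum_add_distrib, ← Finset.sum_add_distrib,
      ← Finset.sum_add_distrib]
    refine Finset.sum_eq_zero ?_
    intro i _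
    have := hc (i + j)
    linear_combination κ (i.val % 5) * this
  rw [← e5, ← e10, ← e15, ← e20] at hsum
  have five : ∀ x : ZMod 2, x + x + x + x + x = 0 → x = 0 := by decide
  exact five _ hsum

/-- Every functional is, on `C`, a normalised one plus a multiple of the coordinate functional. -/
theorem exists_normal (b : V) : ∃ (a : ℕ → Bool) (e : ZMod 2), Normal a ∧
    ∀ c ∈ C, ∀ j : ZMod 25, ∑ i : ZMod 25, b i * c (i + j) = e * c j + fn a c j := by
  -- subtract a row-constant function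
  let b' : V := fun i => b i + b (20 + ((i.val % 5 : ℕ) : ZMod 25))
  let a : ℕ → Bool := fun d => decide (d ≠ 0 ∧ b' (d : ZMod 25) ≠ 0)
  have two : ∀ x : ZMod 2, x + x = 0 := by decide
  have hb' : ∀ d : ℕ, 20 ≤ d → d < 25 → b' (d : ZMod 25) = 0 := by
    intro d h1 h2
    have : (20 + ((((d : ZMod 25)).val % 5 : ℕ) : ZMod 25)) = (d : ZMod 25) := by
      interval_cases d <;> rfl
    simp only [b']
    rw [this]
    exact two _
  refine ⟨a, b' 0, ⟨by simp [a], fun d h1 h2 => ?_⟩, ?_⟩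
  · simp only [a]
    rw [hb' d h1 h2]
    simp
  · intro c hc j
    have hrow : ∑ i : ZMod 25, b (20 + ((i.val % 5 : ℕ) : ZMod 25)) * c (i + j) = 0 :=
      sum_row_const (fun n => b (20 + (n : ZMod 25))) hc j
    have hb : ∑ i : ZMod 25, b i * c (i + j) = ∑ i : ZMod 25, b' i * c (i + j) := by
      have : ∀ i : ZMod 25, b' i * c (i + j) = b i * c (i + j) +
          b (20 + ((i.val % 5 : ℕ) : ZMod 25)) * c (i + j) := by
        intro i
        simp only [b']
        ring
      rw [Finset.sum_congr rfl (fun i _ => this i), Finset.sum_add_distrib, hrow, add_zero]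
    rw [hb]
    unfold fn
    rw [← Finset.add_sum_erase Finset.univ (fun i : ZMod 25 => b' i * c (i + j))
      (Finset.mem_univ 0), ← Finset.add_sum_erase Finset.univ
      (fun i : ZMod 25 => ofB (a i.val) * c (i + j)) (Finset.mem_univ 0)]
    have e1 : ofB (a (0 : ZMod 25).val) = 0 := by
      have : a (0 : ZMod 25).val = false := by simp [a]
      rw [this]; rfl
    simp only [e1, zero_mul, zero_add]
    rw [add_right_inj]
    refine Finset.sum_congr rfl ?_
    intro i hi
    have hi0 : i ≠ 0 := (Finset.mem_erase.1 hi).1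
    have : ofB (a i.val) = b' i := by
      have h1 : a i.val = decide (b' i ≠ 0) := by
        simp only [a]
        rw [ZMod.natCast_zmod_val]
        have : i.val ≠ 0 := by
          intro h
          exact hi0 ((ZMod.val_eq_zero i).1 h)
        simp [this]
      rw [h1, ofB_ne]
    rw [this]

theorem aeval_apply_shift (P : (ZMod 2)[X]) (c : V) (j : ℕ) (i : ZMod 25) :
    aeval shift P c (i + j) = aeval shift P ((shift ^ j) c) i := by
  rw [← shift_pow_apply j (aeval shift P c) i]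
  have h : (shift ^ j) * (aeval shift P) = (aeval shift P) * (shift ^ j) := by
    have : shift ^ j = aeval shift (X ^ j : (ZMod 2)[X]) := by rw [map_pow, aeval_X]
    rw [this, ← map_mul, ← map_mul, mul_comm]
  have := congrArg (fun T : V →ₗ[ZMod 2] V => T c) h
  simp only [Module.End.mul_apply] at this
  rw [this]

/-- The functional `c ↦ (P(shift) c) 0` in coordinates. -/
theorem exists_coord (P : (ZMod 2)[X]) : ∃ b : V, ∀ (c : V) (j : ZMod 25),
    aeval shift P c j = ∑ i : ZMod 25, b i * c (i + j) := by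
  let L : V →ₗ[ZMod 2] ZMod 2 := (LinearMap.proj 0) ∘ₗ (aeval shift P)
  refine ⟨fun i => L (fun j => if i = j then 1 else 0), fun c j => ?_⟩
  have h1 : aeval shift P c j = L ((shift ^ j.val) c) := by
    have := aeval_apply_shift P c j.val 0
    rw [zero_add, ZMod.natCast_zmod_val] at this
    exact this
  rw [h1, LinearMap.pi_apply_eq_sum_univ L]
  refine Finset.sum_congr rfl ?_
  intro i _
  rw [shift_pow_apply, ZMod.natCast_zmod_val, smul_eq_mul, mul_comm]

/-- Every functional on `V` has the form `c ↦ (P(shift) c) 0`. -/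
theorem exists_poly (φ : V →ₗ[ZMod 2] ZMod 2) : ∃ P : (ZMod 2)[X], ∀ c : V,
    aeval shift P c 0 = φ c := by
  refine ⟨∑ i : ZMod 25, Polynomial.C (φ (fun j => if i = j then 1 else 0)) * X ^ i.val,
    fun c => ?_⟩
  rw [map_sum, LinearMap.pi_apply_eq_sum_univ φ, LinearMap.sum_apply, Finset.sum_apply]
  refine Finset.sum_congr rfl ?_
  intro i _
  rw [map_mul, aeval_C, map_pow, aeval_X, Module.End.mul_apply]
  have : (algebraMap (ZMod 2) (Module.End (ZMod 2) V)) (φ (fun j => if i = j then 1 else 0))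
      ((shift ^ i.val) c) 0 =
      φ (fun j => if i = j then 1 else 0) * (shift ^ i.val) c 0 := rfl
  rw [this, shift_pow_apply, ZMod.natCast_zmod_val, zero_add, smul_eq_mul, mul_comm]

/-- The key statement: three functionals which are independent on `C` do not define a covering. -/
theorem key (φ₁ φ₂ φ₃ : V →ₗ[ZMod 2] ZMod 2)
    (h1 : ∃ c ∈ C, φ₁ c ≠ 0) (h2 : ∀ e, ∃ c ∈ C, φ₂ c ≠ e * φ₁ c)
    (h3 : ∀ e, ∃ c ∈ C, φ₃ c ≠ e * φ₁ c) (h23 : ∀ e, ∃ c ∈ C, φ₂ c + φ₃ c ≠ e * φ₁ c) :
    ∃ c ∈ C, ∀ j : ℕ, φ₁ ((shift ^ j) c) ≠ 0 ∨ φ₂ ((shift ^ j) c) ≠ 0 ∨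
      φ₃ ((shift ^ j) c) ≠ 0 := by
  obtain ⟨P₁, hP₁⟩ := exists_poly φ₁
  obtain ⟨P₂, hP₂⟩ := exists_poly φ₂
  obtain ⟨P₃, hP₃⟩ := exists_poly φ₃
  -- `P₁` is invertible modulo the cyclotomic polynomial
  have hnd : ¬ cyclotomic 25 (ZMod 2) ∣ P₁ := by
    rintro ⟨Q, rfl⟩
    obtain ⟨c, hc, h⟩ := h1
    apply h
    rw [← hP₁, mul_comm, map_mul, Module.End.mul_apply, cyclotomic_zero hc, map_zero]
    rfl
  obtain ⟨v, u, huv⟩ : IsCoprime (cyclotomic 25 (ZMod 2)) P₁ :=
    (irreducible_cyc.coprime_iff_not_dvd).2 hnd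
  have hinv : ∀ c ∈ C, aeval shift u (aeval shift P₁ c) = c := by
    intro c hc
    have := congrArg (fun Q : (ZMod 2)[X] => aeval shift Q c) huv
    simp only [map_add, map_mul, LinearMap.add_apply, Module.End.mul_apply, map_one,
      Module.End.one_apply, cyclotomic_zero hc, map_zero, zero_add] at this
    exact this
  have hcomm : ∀ (P Q : (ZMod 2)[X]) (c : V),
      aeval shift P (aeval shift Q c) = aeval shift Q (aeval shift P c) := by
    intro P Q c
    rw [← Module.End.mul_apply, ← map_mul, mul_comm, map_mul, Module.End.mul_apply]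
  obtain ⟨b₂, hb₂⟩ := exists_coord (P₂ * u)
  obtain ⟨b₃, hb₃⟩ := exists_coord (P₃ * u)
  obtain ⟨a₂, e₂, hn₂, ha₂⟩ := exists_normal b₂
  obtain ⟨a₃, e₃, hn₃, ha₃⟩ := exists_normal b₃
  have hcoord : ∀ (P : (ZMod 2)[X]), ∀ c ∈ C,
      aeval shift (P * u) (aeval shift P₁ c) = aeval shift P c := by
    intro P c hc
    rw [map_mul, Module.End.mul_apply, hinv c hc]
  have hf0 : ∀ (a : ℕ → Bool), (∀ d, d < 25 → a d = false) → ∀ (c : V) (j : ZMod 25),
      fn a c j = 0 := by
    intro a ha c j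
    unfold fn
    refine Finset.sum_eq_zero ?_
    intro i _
    rw [ha _ (ZMod.val_lt i), ofB_false, zero_mul]
  obtain ⟨c, hc, hbad⟩ := badNormal a₂ a₃ hn₂ hn₃ (by
      intro h
      obtain ⟨c, hc, hne⟩ := h2 e₂
      apply hne
      rw [← hP₂, ← hP₁, ← hcoord P₂ c hc, hb₂, ha₂ _ (aeval_mem_C P₁ hc), hf0 a₂ h, add_zero])
    (by
      intro h
      obtain ⟨c, hc, hne⟩ := h3 e₃
      apply hne
      rw [← hP₃, ← hP₁, ← hcoord P₃ c hc, hb₃, ha₃ _ (aeval_mem_C P₁ hc), hf0 a₃ h, add_zero])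
    (by
      intro h
      obtain ⟨c, hc, hne⟩ := h23 (e₂ + e₃)
      apply hne
      have hfe : ∀ c j, fn a₂ c j = fn a₃ c j := by
        intro c j
        unfold fn
        refine Finset.sum_congr rfl ?_
        intro i _
        rw [h _ (ZMod.val_lt i)]
      rw [← hP₂, ← hP₃, ← hP₁, ← hcoord P₂ c hc, ← hcoord P₃ c hc, hb₂, hb₃,
        ha₂ _ (aeval_mem_C P₁ hc), ha₃ _ (aeval_mem_C P₁ hc), hfe]
      have two : ∀ x : ZMod 2, x + x = 0 := by decide
      linear_combination two (fn a₃ (aeval shift P₁ c) 0))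
  -- the bad vector
  refine ⟨aeval shift u c, aeval_mem_C u hc, fun j => ?_⟩
  have hback : aeval shift P₁ (aeval shift u c) = c := by rw [hcomm, hinv c hc]
  have t1 : φ₁ ((shift ^ j) (aeval shift u c)) = c (j : ZMod 25) := by
    rw [← hP₁, ← aeval_apply_shift, hback, zero_add]
  have t2 : φ₂ ((shift ^ j) (aeval shift u c)) = e₂ * c (j : ZMod 25) + fn a₂ c j := by
    rw [← hP₂, ← aeval_apply_shift, zero_add, ← Module.End.mul_apply, ← map_mul, hb₂, ha₂ c hc]
  have t3 : φ₃ ((shift ^ j) (aeval shift u c)) = e₃ * c (j : ZMod 25) + fn a₃ c j := by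
    rw [← hP₃, ← aeval_apply_shift, zero_add, ← Module.End.mul_apply, ← map_mul, hb₃, ha₃ c hc]
  rw [t1, t2, t3]
  by_cases hcj : c (j : ZMod 25) = 0
  · right
    rw [hcj, mul_zero, mul_zero, zero_add, zero_add]
    rcases hbad (j : ZMod 25) with h | h | h
    · rw [hcj] at h
      exact absurd h (by decide)
    · left; rw [h]; decide
    · right; rw [h]; decide
  · exact Or.inl hcj

end Pool.Agent.Work.MP_9cc08e_co
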