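import Pool.Agent.Work.MP_9cc08e_co.Steps

set_option autoImplicit false

open Polynomial

namespace Pool.Agent.Work.MP_9cc08e_co

attribute [local irreducible] tt words0 words1 words2 words3 words4 words5 words6 words7 wordsB
  allWords

/-- The space `F_2^25`, coordinates indexed by `ZMod 25`. -/
abbrev V := ZMod 25 → ZMod 2

/-- The cyclic shift. -/
def shift : V →ₗ[ZMod 2] V where
  toFun c i := c (i + 1)
  map_add' _ _ := rfl
  map_smul' _ _ := rfl

theorem shift_apply (c : V) (i : ZMod 25) : shift c i = c (i + 1) := rfl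

theorem shift_pow_apply (k : ℕ) (c : V) (i : ZMod 25) : (shift ^ k) c i = c (i + k) := by
  induction k generalizing i with
  | zero => simp
  | succ k ih =>
    rw [pow_succ', Module.End.mul_apply, shift_apply, ih]
    congr 1
    push_cast
    ring

/-- The vectors all of whose row sums vanish. -/
def C : Submodule (ZMod 2) V where
  carrier := {c | ∀ i, c i + c (i + 5) + c (i + 10) + c (i + 15) + c (i + 20) = 0}
  zero_mem' := by intro i; simp
  add_mem' := by
    intro c d hc hd i
    have h1 := hc i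
    have h2 := hd i
    simp only [Pi.add_apply]
    linear_combination h1 + h2
  smul_mem' := by
    intro r c hc i
    have h1 := hc i
    simp only [Pi.smul_apply, smul_eq_mul]
    linear_combination r * h1

theorem mem_C {c : V} : c ∈ C ↔ ∀ i, c i + c (i + 5) + c (i + 10) + c (i + 15) + c (i + 20) = 0 :=
  Iff.rfl

theorem shift_mem_C {c : V} (hc : c ∈ C) : shift c ∈ C := by
  rw [mem_C] at hc ⊢
  intro i
  have := hc (i + 1)
  simp only [shift_apply]
  have e : ∀ k : ZMod 25, i + 1 + k = i + k + 1 := fun k => by ring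
  rw [e, e, e, e] at this
  exact this

theorem aeval_mem_C (P : (ZMod 2)[X]) {c : V} (hc : c ∈ C) : aeval shift P c ∈ C := by
  induction P using Polynomial.induction_on' with
  | add p q hp hq => rw [map_add]; exact C.add_mem hp hq
  | monomial n a =>
    rw [aeval_monomial, Module.End.mul_apply]
    have h1 : ∀ n : ℕ, (shift ^ n) c ∈ C := by
      intro n
      induction n with
      | zero => simpa using hc
      | succ n ih => rw [pow_succ', Module.End.mul_apply]; exact shift_mem_C ih
    exact C.smul_mem a (h1 n)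

theorem cyclotomic_eq : cyclotomic 25 (ZMod 2) =
    1 + X ^ 5 + X ^ 10 + X ^ 15 + X ^ 20 := by
  have h := cyclotomic_prime_pow_eq_geom_sum (R := ZMod 2) (p := 5) (n := 1) (by norm_num)
  norm_num at h
  rw [h]
  simp [Finset.sum_range_succ]
  ring

theorem cyclotomic_zero {c : V} (hc : c ∈ C) : aeval shift (cyclotomic 25 (ZMod 2)) c = 0 := by
  rw [cyclotomic_eq]
  simp only [map_add, map_pow, aeval_X, map_one, LinearMap.add_apply, Module.End.one_apply]
  funext i
  simp only [Pi.add_apply, shift_pow_apply, Pi.zero_apply]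
  exact_mod_cast hc i

theorem irreducible_cyc : Irreducible (cyclotomic 25 (ZMod 2)) := by
  have : Fact (Nat.Prime 2) := ⟨Nat.prime_two⟩
  refine ZMod.irreducible_of_dvd_cyclotomic_of_natDegree (p := 2) (n := 25) (by norm_num) dvd_rfl ?_
  rw [natDegree_cyclotomic]
  have h1 : Nat.totient 25 = 20 := by decide
  rw [h1]
  symm
  rw [← orderOf_units]
  have h2 : ((ZMod.unitOfCoprime 2 (Nat.prime_two.coprime_iff_not_dvd.mpr
      (by norm_num : ¬ 2 ∣ 25)) : (ZMod 25)ˣ) : ZMod 25) = 2 := rfl
  rw [h2]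
  have h3 : orderOf (2 : ZMod 25) = 20 := by
    apply orderOf_eq_of_pow_and_pow_div_prime (by norm_num) (by decide)
    intro p hp hdvd
    have hp2 : p ∣ 2 ^ 2 * 5 := by simpa using hdvd
    rcases (Nat.Prime.dvd_mul hp).1 hp2 with h | h
    · have : p = 2 := (Nat.prime_dvd_prime_iff_eq hp Nat.prime_two).1 (hp.dvd_of_dvd_pow h)
      subst this
      decide
    · have : p = 5 := (Nat.prime_dvd_prime_iff_eq hp Nat.prime_five).1 h
      subst this
      decide
  exact h3

/-! ### From Boolean words to vectors -/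

/-- `true ↦ 1`, `false ↦ 0`. -/
def ofB (b : Bool) : ZMod 2 := if b then 1 else 0

theorem ofB_xor (a b : Bool) : ofB (a ^^ b) = ofB a + ofB b := by
  cases a <;> cases b <;> decide

theorem ofB_true : ofB true = 1 := rfl

theorem ofB_false : ofB false = 0 := rfl

/-- The vector whose zero set is coded by `m`. -/
def wv (m : ℕ) : V := fun i => if m.testBit i.val then 0 else 1

theorem wv_eq (m : ℕ) (i : ZMod 25) : wv m i = 1 + ofB (m.testBit i.val) := by
  unfold wv ofB
  split_ifs <;> decide

theorem ofB_formB (a : ℕ → Bool) (T : Bool) (z : ℕ) (Z : List ℕ) :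
    ofB (formB a T z Z) = ofB T + (Z.map (fun z' => ofB (a ((z' + 25 - z) % 25)))).sum := by
  unfold formB
  induction Z with
  | nil => simp
  | cons z' Z ih =>
    simp only [List.foldr_cons, List.map_cons, List.sum_cons]
    rw [ofB_xor, ih]
    ring

theorem sum_filter_list (g : ℕ → ZMod 2) (m : ℕ) (L : List ℕ) :
    ((L.filter (fun i => m.testBit i)).map g).sum =
      (L.map (fun i => ofB (m.testBit i) * g i)).sum := by
  induction L with
  | nil => rfl
  | cons x L ih =>
    rw [List.filter_cons]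
    split_ifs with h
    · rw [List.map_cons, List.sum_cons, ih, List.map_cons, List.sum_cons, h, ofB_true, one_mul]
    · rw [ih, List.map_cons, List.sum_cons]
      have : m.testBit x = false := by simpa using h
      rw [this, ofB_false, zero_mul, zero_add]

theorem sum_zmod (g : ℕ → ZMod 2) :
    ([0, 1, 2, 3, 4, 5, 6, 7, 8, 9, 10, 11, 12, 13, 14, 15, 16, 17, 18, 19, 20, 21, 22, 23, 24].map
      g).sum = ∑ i : ZMod 25, g i.val := by
  have h : ∑ i : ZMod 25, g i.val = ∑ i : Fin 25, g i.val := rfl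
  rw [h, Fin.sum_univ_eq_sum_range]
  simp only [Finset.sum_range_succ, Finset.sum_range_zero, List.map_cons, List.map_nil,
    List.sum_cons, List.sum_nil]
  ring

theorem sum_zerosOf (g : ℕ → ZMod 2) (m : ℕ) :
    ((zerosOf m).map g).sum = ∑ k : ZMod 25, ofB (m.testBit k.val) * g k.val := by
  unfold zerosOf
  rw [sum_filter_list, sum_zmod (fun i => ofB (m.testBit i) * g i)]

theorem ofB_TofB (a : ℕ → Bool) : ofB (TofB a) = ∑ i : ZMod 25, ofB (a i.val) := by
  rw [← sum_zmod (fun i => ofB (a i))]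
  have key : ∀ L : List ℕ, ofB (L.foldr (fun d acc => (a d) ^^ acc) false) =
      (L.map (fun i => ofB (a i))).sum := by
    intro L
    induction L with
    | nil => rfl
    | cons x L ih => simp only [List.foldr_cons, List.map_cons, List.sum_cons]; rw [ofB_xor, ih]
  exact key _

theorem fin_val_sub (k j : Fin 25) : ((k - j : Fin 25) : ℕ) = ((k : ℕ) + 25 - (j : ℕ)) % 25 := by
  rw [Fin.val_sub]
  have h1 : (j : ℕ) < 25 := j.2
  have h2 : 25 - (j : ℕ) + (k : ℕ) = (k : ℕ) + 25 - (j : ℕ) := by omega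
  rw [h2]

theorem val_sub (k j : ZMod 25) : (k - j).val = (k.val + 25 - j.val) % 25 :=
  fin_val_sub k j

/-- The functional attached to a Boolean function `a`. -/
def fn (a : ℕ → Bool) (c : V) (j : ZMod 25) : ZMod 2 := ∑ i : ZMod 25, ofB (a i.val) * c (i + j)

theorem fn_wv (a : ℕ → Bool) (m : ℕ) (j : ZMod 25) :
    fn a (wv m) j = ofB (formB a (TofB a) j.val (zerosOf m)) := by
  rw [ofB_formB, ofB_TofB, sum_zerosOf]
  unfold fn
  have h1 : ∀ i : ZMod 25, ofB (a i.val) * wv m (i + j) =
      ofB (a i.val) + ofB (a i.val) * ofB (m.testBit (i + j).val) := by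
    intro i
    rw [wv_eq]
    ring
  rw [Finset.sum_congr rfl (fun i _ => h1 i), Finset.sum_add_distrib, add_right_inj]
  -- reindex
  rw [← Equiv.sum_comp (Equiv.addRight j)
    (fun k : ZMod 25 => ofB (m.testBit k.val) * ofB (a ((k.val + 25 - j.val) % 25)))]
  refine Finset.sum_congr rfl ?_
  intro i _
  rw [Equiv.coe_addRight, ← val_sub, add_sub_cancel_right]
  ring

theorem zero_mem_zerosOf {m : ℕ} {j : ZMod 25} (h : wv m j ≠ 1) : j.val ∈ zerosOf m := by
  have hb : m.testBit j.val = true := by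
    by_contra hcon
    apply h
    unfold wv
    rw [if_neg hcon]
  unfold zerosOf
  rw [List.mem_filter]
  refine ⟨?_, hb⟩
  have : j.val < 25 := ZMod.val_lt j
  interval_cases j.val <;> decide

theorem bad1_wv {a : ℕ → Bool} {m : ℕ} (h : Bad1 a m) (j : ZMod 25) :
    wv m j = 1 ∨ fn a (wv m) j = 1 := by
  by_cases hj : wv m j = 1
  · exact Or.inl hj
  · right
    rw [fn_wv, h _ (zero_mem_zerosOf hj)]
    rfl

theorem bad2_wv {a b : ℕ → Bool} {m : ℕ} (h : Bad2 a b m) (j : ZMod 25) :
    wv m j = 1 ∨ fn a (wv m) j = 1 ∨ fn b (wv m) j = 1 := by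
  by_cases hj : wv m j = 1
  · exact Or.inl hj
  · right
    rw [fn_wv, fn_wv]
    rcases h _ (zero_mem_zerosOf hj) with h1 | h1
    · left; rw [h1]; rfl
    · right; rw [h1]; rfl

theorem row_of_valid {m : ℕ} (h : validW m = true) (r : ℕ) (hr : r < 5) :
    ((m.testBit r) ^^ (m.testBit (r + 5)) ^^ (m.testBit (r + 10)) ^^
      (m.testBit (r + 15)) ^^ (m.testBit (r + 20))) = true := by
  unfold validW at h
  rw [List.all_eq_true] at h
  apply h r
  interval_cases r <;> decide

theorem wv_mem_C {m : ℕ} (h : validW m = true) : wv m ∈ C := by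
  have hrow : ∀ r : ℕ, r < 5 → (ofB (m.testBit r) + ofB (m.testBit (r + 5)) +
      ofB (m.testBit (r + 10)) + ofB (m.testBit (r + 15)) + ofB (m.testBit (r + 20))) = 1 := by
    intro r hr
    have := congrArg ofB (row_of_valid h r hr)
    rw [ofB_xor, ofB_xor, ofB_xor, ofB_xor, ofB_true] at this
    exact this
  have r0 := hrow 0 (by norm_num)
  have r1 := hrow 1 (by norm_num)
  have r2 := hrow 2 (by norm_num)
  have r3 := hrow 3 (by norm_num)
  have r4 := hrow 4 (by norm_num)
  have five : (5 : ZMod 2) = 1 := by decide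
  have key : ∀ x0 x1 x2 x3 x4 : ZMod 2, x0 + x1 + x2 + x3 + x4 = 1 →
      (1 + x0) + (1 + x1) + (1 + x2) + (1 + x3) + (1 + x4) = 0 := by decide
  have rot : ∀ {x0 x1 x2 x3 x4 : ZMod 2}, x0 + x1 + x2 + x3 + x4 = 1 →
      x1 + x2 + x3 + x4 + x0 = 1 := by
    intro x0 x1 x2 x3 x4 h
    rw [← h]; ring
  rw [mem_C]
  intro i
  simp only [wv_eq]
  fin_cases i
  · exact key _ _ _ _ _ r0
  · exact key _ _ _ _ _ r1
  · exact key _ _ _ _ _ r2
  · exact key _ _ _ _ _ r3
  · exact key _ _ _ _ _ r4
  · exact key _ _ _ _ _ (rot r0)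
  · exact key _ _ _ _ _ (rot r1)
  · exact key _ _ _ _ _ (rot r2)
  · exact key _ _ _ _ _ (rot r3)
  · exact key _ _ _ _ _ (rot r4)
  · exact key _ _ _ _ _ (rot (rot r0))
  · exact key _ _ _ _ _ (rot (rot r1))
  · exact key _ _ _ _ _ (rot (rot r2))
  · exact key _ _ _ _ _ (rot (rot r3))
  · exact key _ _ _ _ _ (rot (rot r4))
  · exact key _ _ _ _ _ (rot (rot (rot r0)))
  · exact key _ _ _ _ _ (rot (rot (rot r1)))
  · exact key _ _ _ _ _ (rot (rot (rot r2)))
  · exact key _ _ _ _ _ (rot (rot (rot r3)))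
  · exact key _ _ _ _ _ (rot (rot (rot r4)))
  · exact key _ _ _ _ _ (rot (rot (rot (rot r0))))
  · exact key _ _ _ _ _ (rot (rot (rot (rot r1))))
  · exact key _ _ _ _ _ (rot (rot (rot (rot r2))))
  · exact key _ _ _ _ _ (rot (rot (rot (rot r3))))
  · exact key _ _ _ _ _ (rot (rot (rot (rot r4))))

end Pool.Agent.Work.MP_9cc08e_co
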