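import Pool.Agent.Work.MP_9cc08e_co.Comp

set_option autoImplicit false

namespace Pool.Agent.Work.MP_9cc08e_co

theorem shiftLeft_one (n : ℕ) : Nat.shiftLeft 1 n = 2 ^ n := by
  have : Nat.shiftLeft 1 n = 1 <<< n := rfl
  rw [this, Nat.shiftLeft_eq, one_mul]

theorem ones_eq (n : ℕ) : ones n = 2 ^ (2 ^ n) - 1 := by
  unfold ones
  rw [shiftLeft_one]

theorem testBit_ones {n i : ℕ} (hi : i < 2 ^ n) : (ones n).testBit i = true := by
  rw [ones_eq, Nat.testBit_two_pow_sub_one]
  simpa using hi

theorem tt_lt (n k : ℕ) : tt n k < 2 ^ (2 ^ n) := by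
  induction n with
  | zero => simp [tt]
  | succ n ih =>
    have h2 : 2 ^ (2 ^ (n + 1)) = 2 ^ (2 ^ n) * 2 ^ (2 ^ n) := by
      rw [← pow_add]; congr 1; ring
    have hp : 0 < 2 ^ (2 ^ n) := by positivity
    unfold tt
    split_ifs with h
    · change (Nat.shiftLeft 1 (2 ^ n) - 1) <<< (2 ^ n) < _
      rw [shiftLeft_one, Nat.shiftLeft_eq, h2]
      exact Nat.mul_lt_mul_of_pos_right (Nat.sub_lt hp one_pos) hp
    · change (tt n k) ||| ((tt n k) <<< (2 ^ n)) < _
      apply Nat.or_lt_two_pow
      · exact ih.trans_le (Nat.pow_le_pow_right (by norm_num)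
          (Nat.pow_le_pow_right (by norm_num) (Nat.le_succ n)))
      · rw [Nat.shiftLeft_eq, h2]
        exact Nat.mul_lt_mul_of_pos_right ih hp

theorem testBit_tt {n k i : ℕ} (hk : k < n) (hi : i < 2 ^ n) :
    (tt n k).testBit i = i.testBit k := by
  induction n generalizing i with
  | zero => omega
  | succ n ih =>
    unfold tt
    split_ifs with h
    · subst h
      change ((Nat.shiftLeft 1 (2 ^ k) - 1) <<< (2 ^ k)).testBit i = _
      rw [shiftLeft_one, Nat.testBit_shiftLeft, Nat.testBit_two_pow_sub_one]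
      rcases lt_or_ge i (2 ^ k) with h1 | h1
      · have : i.testBit k = false := Nat.testBit_lt_two_pow h1
        rw [this]
        simp [h1]
      · obtain ⟨j, rfl⟩ : ∃ j, i = 2 ^ k + j := ⟨i - 2 ^ k, by omega⟩
        have hj : j < 2 ^ k := by rw [pow_succ] at hi; omega
        rw [Nat.testBit_two_pow_add_eq, Nat.testBit_lt_two_pow hj]
        simp [hj]
    · have hk' : k < n := by omega
      change ((tt n k) ||| ((tt n k) <<< (2 ^ n))).testBit i = _
      rw [Nat.testBit_or, Nat.testBit_shiftLeft]
      rcases lt_or_ge i (2 ^ n) with h1 | h1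
      · rw [ih hk' h1]
        simp [h1]
      · obtain ⟨j, rfl⟩ : ∃ j, i = 2 ^ n + j := ⟨i - 2 ^ n, by omega⟩
        have hj : j < 2 ^ n := by rw [pow_succ] at hi; omega
        have h2 : (tt n k).testBit (2 ^ n + j) = false :=
          Nat.testBit_lt_two_pow ((tt_lt n k).trans_le (Nat.pow_le_pow_right (by norm_num)
            (Nat.le_add_right _ _)))
        rw [h2, Nat.testBit_two_pow_add_gt hk']
        simp [ih hk' hj]

/-- Boolean versions. -/
def formB (a : ℕ → Bool) (T : Bool) (z : ℕ) (Z : List ℕ) : Bool :=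
  Z.foldr (fun z' acc => (a ((z' + 25 - z) % 25)) ^^ acc) T

def TofB (a : ℕ → Bool) : Bool :=
  [0, 1, 2, 3, 4, 5, 6, 7, 8, 9, 10, 11, 12, 13, 14, 15, 16, 17, 18, 19, 20, 21, 22, 23, 24].foldr
    (fun d acc => (a d) ^^ acc) false

/-- The set coded by `m` is bad for `a`. -/
def Bad1 (a : ℕ → Bool) (m : ℕ) : Prop :=
  ∀ z ∈ zerosOf m, formB a (TofB a) z (zerosOf m) = true

def Bad2 (a b : ℕ → Bool) (m : ℕ) : Prop :=
  ∀ z ∈ zerosOf m, formB a (TofB a) z (zerosOf m) = true ∨ formB b (TofB b) z (zerosOf m) = true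

theorem testBit_xor' (x y i : ℕ) : (Nat.xor x y).testBit i = ((x.testBit i) ^^ (y.testBit i)) :=
  Nat.testBit_xor x y i

theorem testBit_and' (x y i : ℕ) : (Nat.land x y).testBit i = ((x.testBit i) && (y.testBit i)) :=
  Nat.testBit_and x y i

theorem testBit_or' (x y i : ℕ) : (Nat.lor x y).testBit i = ((x.testBit i) || (y.testBit i)) :=
  Nat.testBit_or x y i

theorem form_testBit {X : List ℕ} {a : ℕ → Bool} {i : ℕ}
    (h : ∀ d, d < 25 → (X.getD d 0).testBit i = a d) (T z : ℕ) (Z : List ℕ) :
    (form X T z Z).testBit i = formB a (T.testBit i) z Z := by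
  unfold form formB
  induction Z with
  | nil => rfl
  | cons z' Z ih =>
    simp only [List.foldr_cons]
    rw [testBit_xor', ih, h _ (Nat.mod_lt _ (by norm_num))]

theorem killN_testBit {X : List ℕ} {a : ℕ → Bool} {i : ℕ}
    (h : ∀ d, d < 25 → (X.getD d 0).testBit i = a d) (T o : ℕ) (Z : List ℕ) :
    ∀ (n : ℕ) (zs : List ℕ), (killN X T o Z n zs).testBit i = true →
      ∀ z ∈ zs, formB a (T.testBit i) z Z = true := by
  intro n zs
  induction zs generalizing n with
  | nil => simp
  | cons z zs ih =>
    intro hk z' hz'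
    unfold killN at hk
    rw [testBit_and', Bool.and_eq_true, form_testBit h] at hk
    rcases List.mem_cons.1 hz' with rfl | hz'
    · exact hk.1
    · exact ih 0 hk.2 z' hz'

theorem allN_testBit {X : List ℕ} {a : ℕ → Bool} {i : ℕ}
    (h : ∀ d, d < 25 → (X.getD d 0).testBit i = a d) (T o init : ℕ) (hT : T.testBit i = TofB a)
    (ws : List ℕ) (hall : (allN X T o init ws).testBit i = true) :
    init.testBit i = true ∨ ∃ m ∈ ws, Bad1 a m := by
  unfold allN at hall
  induction ws with
  | nil => exact Or.inl hall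
  | cons m ws ih =>
    simp only [List.foldr_cons] at hall
    rw [testBit_or', Bool.or_eq_true] at hall
    rcases hall with hall | hall
    · refine Or.inr ⟨m, List.mem_cons_self, ?_⟩
      intro z hz
      have := killN_testBit h T o _ _ _ hall z hz
      rwa [hT] at this
    · rcases ih hall with h1 | ⟨m', hm', h1⟩
      · exact Or.inl h1
      · exact Or.inr ⟨m', List.mem_cons_of_mem _ hm', h1⟩

theorem killN2_testBit {X Y : List ℕ} {a b : ℕ → Bool} {i : ℕ}
    (h : ∀ d, d < 25 → (X.getD d 0).testBit i = a d)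
    (h' : ∀ d, d < 25 → (Y.getD d 0).testBit i = b d) (T S o : ℕ) (Z : List ℕ) :
    ∀ (zs : List ℕ), (killN2 X Y T S o Z zs).testBit i = true →
      ∀ z ∈ zs, formB a (T.testBit i) z Z = true ∨ formB b (S.testBit i) z Z = true := by
  intro zs
  induction zs with
  | nil => simp
  | cons z zs ih =>
    intro hk z' hz'
    unfold killN2 at hk
    rw [testBit_and', Bool.and_eq_true, testBit_or', Bool.or_eq_true, form_testBit h,
      form_testBit h'] at hk
    rcases List.mem_cons.1 hz' with rfl | hz'
    · exact hk.1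
    · exact ih hk.2 z' hz'

theorem allN2_testBit {X Y : List ℕ} {a b : ℕ → Bool} {i : ℕ}
    (h : ∀ d, d < 25 → (X.getD d 0).testBit i = a d)
    (h' : ∀ d, d < 25 → (Y.getD d 0).testBit i = b d) (T S o init : ℕ)
    (hT : T.testBit i = TofB a) (hS : S.testBit i = TofB b)
    (ws : List ℕ) (hall : (allN2 X Y T S o init ws).testBit i = true) :
    init.testBit i = true ∨ ∃ m ∈ ws, Bad2 a b m := by
  unfold allN2 at hall
  induction ws with
  | nil => exact Or.inl hall
  | cons m ws ih =>
    simp only [List.foldr_cons] at hall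
    rw [testBit_or', Bool.or_eq_true] at hall
    rcases hall with hall | hall
    · refine Or.inr ⟨m, List.mem_cons_self, ?_⟩
      intro z hz
      have := killN2_testBit h h' T S o _ _ hall z hz
      rwa [hT, hS] at this
    · rcases ih hall with h1 | ⟨m', hm', h1⟩
      · exact Or.inl h1
      · exact Or.inr ⟨m', List.mem_cons_of_mem _ hm', h1⟩

def eqnB (a : ℕ → Bool) (l : List ℕ) : Bool := l.foldr (fun d acc => (a d) ^^ acc) false

theorem eqn_testBit {X : List ℕ} {a : ℕ → Bool} {i o : ℕ} (ho : o.testBit i = true)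
    (h : ∀ d, d < 25 → (X.getD d 0).testBit i = a d) (l : List ℕ) (hl : ∀ d ∈ l, d < 25) :
    (eqn X o l).testBit i = !(eqnB a l) := by
  unfold eqn eqnB
  induction l with
  | nil => simp [ho]
  | cons d l ih =>
    simp only [List.foldr_cons]
    rw [testBit_xor', ih (fun e he => hl e (List.mem_cons_of_mem _ he)),
      h d (hl d List.mem_cons_self)]
    cases a d <;> simp

theorem eqns_testBit {X : List ℕ} {a : ℕ → Bool} {i o : ℕ} (ho : o.testBit i = true)
    (h : ∀ d, d < 25 → (X.getD d 0).testBit i = a d) (ls : List (List ℕ))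
    (hl : ∀ l ∈ ls, ∀ d ∈ l, d < 25) (hall : (eqns X o ls).testBit i = true) :
    ∀ l ∈ ls, eqnB a l = false := by
  unfold eqns at hall
  induction ls with
  | nil => simp
  | cons l ls ih =>
    simp only [List.foldr_cons] at hall
    rw [testBit_and', Bool.and_eq_true, eqn_testBit ho h l (hl l List.mem_cons_self)] at hall
    intro l' hl'
    rcases List.mem_cons.1 hl' with rfl | hl'
    · simpa using hall.1
    · exact ih (fun l hl2 => hl l (List.mem_cons_of_mem _ hl2)) hall.2 l' hl'

/-- `a` is symmetric (modulo functions constant on rows, normalised). -/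
def Sym (a : ℕ → Bool) : Prop := ∀ l ∈ symEqs, eqnB a l = false

theorem Tof_testBit {X : List ℕ} {a : ℕ → Bool} {i : ℕ} (hX : X.length = 25)
    (h : ∀ d, d < 25 → (X.getD d 0).testBit i = a d) : (Tof X).testBit i = TofB a := by
  have key : ∀ (L : List ℕ), (L.foldr Nat.xor 0).testBit i =
      (L.map (fun x => x.testBit i)).foldr (fun x acc => x ^^ acc) false := by
    intro L
    induction L with
    | nil => simp
    | cons x L ih => simp only [List.foldr_cons, List.map_cons]; rw [testBit_xor', ih]
  unfold Tof TofB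
  rw [key]
  have h2 : X.map (fun x => x.testBit i) =
      [0, 1, 2, 3, 4, 5, 6, 7, 8, 9, 10, 11, 12, 13, 14, 15, 16, 17, 18, 19, 20, 21, 22, 23,
        24].map a := by
    apply List.ext_getElem
    · simp [hX]
    · intro n h1 h2
      simp only [List.length_map, hX] at h1
      have := h n h1
      rw [List.getD_eq_getElem _ _ (by rw [hX]; exact h1)] at this
      rw [List.getElem_map, List.getElem_map, this]
      congr 1
      interval_cases n <;> rfl
  rw [h2, List.foldr_map]

/-- The index coding an assignment of `n` Boolean variables. -/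
theorem exists_index {n : ℕ} (f : ℕ → Bool) : ∃ i, i < 2 ^ n ∧ ∀ k, k < n → (tt n k).testBit i = f k := by
  refine ⟨Nat.ofBits (fun k : Fin n => f k), Nat.ofBits_lt_two_pow _, ?_⟩
  intro k hk
  rw [testBit_tt hk (Nat.ofBits_lt_two_pow _), Nat.testBit_ofBits_lt _ _ hk]

def vs : List ℕ := [1, 2, 3, 4, 6, 7, 8, 9, 11, 12, 13, 14, 16, 17, 18, 19]

/-- Normalised functions: `a 0 = 0` and `a d = 0` for `20 ≤ d < 25`. -/
def Normal (a : ℕ → Bool) : Prop := a 0 = false ∧ ∀ d, 20 ≤ d → d < 25 → a d = false

attribute [local irreducible] tt words0 words1 words2 words3 words4 words5 words6 words7 wordsB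

theorem stepA_case (v5 v10 v15 : ℕ) (ws : List ℕ)
    (hcase : (allN (Xs v5 v10 v15) (Tof (Xs v5 v10 v15)) (ones 16)
      (eqns (Xs v5 v10 v15) (ones 16) symEqs) ws == ones 16) = true)
    (a : ℕ → Bool) (ha : Normal a) (h5 : ∀ i, i < 2 ^ 16 → v5.testBit i = a 5)
    (h10 : ∀ i, i < 2 ^ 16 → v10.testBit i = a 10)
    (h15 : ∀ i, i < 2 ^ 16 → v15.testBit i = a 15) :
    Sym a ∨ ∃ m ∈ ws, Bad1 a m := by
  obtain ⟨i, hi, hk⟩ := exists_index (n := 16) (fun k => a (vs.getD k 0))
  have h : ∀ d, d < 25 → ((Xs v5 v10 v15).getD d 0).testBit i = a d := by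
    intro d hd
    have e0 := ha.1
    have e20 := ha.2 20 (by norm_num) (by norm_num)
    have e21 := ha.2 21 (by norm_num) (by norm_num)
    have e22 := ha.2 22 (by norm_num) (by norm_num)
    have e23 := ha.2 23 (by norm_num) (by norm_num)
    have e24 := ha.2 24 (by norm_num) (by norm_num)
    have z0 : (0 : ℕ).testBit i = false := Nat.zero_testBit i
    interval_cases d <;> unfold Xs <;> (repeat rw [List.getD_cons_succ]) <;>
      rw [List.getD_cons_zero]
    · exact z0.trans e0.symm
    · exact hk 0 (by norm_num)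
    · exact hk 1 (by norm_num)
    · exact hk 2 (by norm_num)
    · exact hk 3 (by norm_num)
    · exact h5 i hi
    · exact hk 4 (by norm_num)
    · exact hk 5 (by norm_num)
    · exact hk 6 (by norm_num)
    · exact hk 7 (by norm_num)
    · exact h10 i hi
    · exact hk 8 (by norm_num)
    · exact hk 9 (by norm_num)
    · exact hk 10 (by norm_num)
    · exact hk 11 (by norm_num)
    · exact h15 i hi
    · exact hk 12 (by norm_num)
    · exact hk 13 (by norm_num)
    · exact hk 14 (by norm_num)
    · exact hk 15 (by norm_num)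
    · exact z0.trans e20.symm
    · exact z0.trans e21.symm
    · exact z0.trans e22.symm
    · exact z0.trans e23.symm
    · exact z0.trans e24.symm
  have ho : (ones 16).testBit i = true := testBit_ones hi
  have hall := beq_iff_eq.1 hcase
  have h1 : (allN (Xs v5 v10 v15) (Tof (Xs v5 v10 v15)) (ones 16)
      (eqns (Xs v5 v10 v15) (ones 16) symEqs) ws).testBit i = true := by
    rw [hall]; exact ho
  rcases allN_testBit h _ _ _ (Tof_testBit rfl h) ws h1 with h2 | h2
  · left
    exact eqns_testBit ho h symEqs (by decide) h2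
  · exact Or.inr h2

/-- All words used. -/
def allWords : List ℕ :=
  words0 ++ words1 ++ words2 ++ words3 ++ words4 ++ words5 ++ words6 ++ words7 ++ wordsB

theorem stepA (a : ℕ → Bool) (ha : Normal a) : Sym a ∨ ∃ m ∈ allWords, Bad1 a m := by
  have h0 : ∀ i, i < 2 ^ 16 → (0 : ℕ).testBit i = false := fun i _ => Nat.zero_testBit i
  have h1 : ∀ i, i < 2 ^ 16 → (ones 16).testBit i = true := fun i hi => testBit_ones hi
  have mem : ∀ {ws : List ℕ}, (∀ m ∈ ws, m ∈ allWords) → (Sym a ∨ ∃ m ∈ ws, Bad1 a m) →
      (Sym a ∨ ∃ m ∈ allWords, Bad1 a m) := by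
    rintro ws hws (h | ⟨m, hm, h⟩)
    · exact Or.inl h
    · exact Or.inr ⟨m, hws m hm, h⟩
  rcases h5 : a 5 with _ | _ <;> rcases h10 : a 10 with _ | _ <;> rcases h15 : a 15 with _ | _
  · exact mem (by unfold allWords; intro m hm; simp only [List.mem_append, hm, true_or, or_true])
      (stepA_case _ _ _ words0 case0 a ha (by rw [h5]; exact h0) (by rw [h10]; exact h0)
        (by rw [h15]; exact h0))
  · exact mem (by unfold allWords; intro m hm; simp only [List.mem_append, hm, true_or, or_true])
      (stepA_case _ _ _ words4 case4 a ha (by rw [h5]; exact h0) (by rw [h10]; exact h0)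
        (by rw [h15]; exact h1))
  · exact mem (by unfold allWords; intro m hm; simp only [List.mem_append, hm, true_or, or_true])
      (stepA_case _ _ _ words2 case2 a ha (by rw [h5]; exact h0) (by rw [h10]; exact h1)
        (by rw [h15]; exact h0))
  · exact mem (by unfold allWords; intro m hm; simp only [List.mem_append, hm, true_or, or_true])
      (stepA_case _ _ _ words6 case6 a ha (by rw [h5]; exact h0) (by rw [h10]; exact h1)
        (by rw [h15]; exact h1))
  · exact mem (by unfold allWords; intro m hm; simp only [List.mem_append, hm, true_or, or_true])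
      (stepA_case _ _ _ words1 case1 a ha (by rw [h5]; exact h1) (by rw [h10]; exact h0)
        (by rw [h15]; exact h0))
  · exact mem (by unfold allWords; intro m hm; simp only [List.mem_append, hm, true_or, or_true])
      (stepA_case _ _ _ words5 case5 a ha (by rw [h5]; exact h1) (by rw [h10]; exact h0)
        (by rw [h15]; exact h1))
  · exact mem (by unfold allWords; intro m hm; simp only [List.mem_append, hm, true_or, or_true])
      (stepA_case _ _ _ words3 case3 a ha (by rw [h5]; exact h1) (by rw [h10]; exact h1)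
        (by rw [h15]; exact h0))
  · exact mem (by unfold allWords; intro m hm; simp only [List.mem_append, hm, true_or, or_true])
      (stepA_case _ _ _ words7 case7 a ha (by rw [h5]; exact h1) (by rw [h10]; exact h1)
        (by rw [h15]; exact h1))

/-- The free positions of a symmetric function. -/
def fv : List ℕ := [1, 2, 6, 7, 10, 11, 12, 16, 17]

theorem Ys_testBit (k : ℕ) (a : ℕ → Bool) (ha : Normal a) (hs : Sym a) (i : ℕ)
    (hk : ∀ j, j < 9 → (tt 18 (k + j)).testBit i = a (fv.getD j 0)) :
    ∀ d, d < 25 → ((Ys k).getD d 0).testBit i = a d := by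
  intro d hd
  have e0 := ha.1
  have e20 := ha.2 20 (by norm_num) (by norm_num)
  have e21 := ha.2 21 (by norm_num) (by norm_num)
  have e22 := ha.2 22 (by norm_num) (by norm_num)
  have e23 := ha.2 23 (by norm_num) (by norm_num)
  have e24 := ha.2 24 (by norm_num) (by norm_num)
  have z0 : (0 : ℕ).testBit i = false := Nat.zero_testBit i
  have s1 := hs [5] (by decide)
  have s2 := hs [10, 15] (by decide)
  have s3 := hs [4, 1] (by decide)
  have s4 := hs [19, 1, 6] (by decide)
  have s5 := hs [14, 1, 11] (by decide)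
  have s6 := hs [9, 1, 16] (by decide)
  have s7 := hs [3, 2] (by decide)
  have s8 := hs [18, 2, 7] (by decide)
  have s9 := hs [13, 2, 12] (by decide)
  have s10 := hs [8, 2, 17] (by decide)
  simp only [eqnB, List.foldr_cons, List.foldr_nil, Bool.xor_false] at s1 s2 s3 s4 s5 s6 s7 s8 s9 s10
  have k0 : (tt 18 k).testBit i = a 1 := hk 0 (by norm_num)
  have k1 : (tt 18 (k + 1)).testBit i = a 2 := hk 1 (by norm_num)
  have k2 : (tt 18 (k + 2)).testBit i = a 6 := hk 2 (by norm_num)
  have k3 : (tt 18 (k + 3)).testBit i = a 7 := hk 3 (by norm_num)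
  have k4 : (tt 18 (k + 4)).testBit i = a 10 := hk 4 (by norm_num)
  have k5 : (tt 18 (k + 5)).testBit i = a 11 := hk 5 (by norm_num)
  have k6 : (tt 18 (k + 6)).testBit i = a 12 := hk 6 (by norm_num)
  have k7 : (tt 18 (k + 7)).testBit i = a 16 := hk 7 (by norm_num)
  have k8 : (tt 18 (k + 8)).testBit i = a 17 := hk 8 (by norm_num)
  have t3 : a 3 = a 2 := by revert s7; cases a 3 <;> cases a 2 <;> simp
  have t4 : a 4 = a 1 := by revert s3; cases a 4 <;> cases a 1 <;> simp
  have t15 : a 15 = a 10 := by revert s2; cases a 15 <;> cases a 10 <;> simp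
  have t19 : a 19 = ((a 1) ^^ (a 6)) := by
    revert s4; cases a 19 <;> cases a 1 <;> cases a 6 <;> simp
  have t14 : a 14 = ((a 1) ^^ (a 11)) := by
    revert s5; cases a 14 <;> cases a 1 <;> cases a 11 <;> simp
  have t9 : a 9 = ((a 1) ^^ (a 16)) := by
    revert s6; cases a 9 <;> cases a 1 <;> cases a 16 <;> simp
  have t18 : a 18 = ((a 2) ^^ (a 7)) := by
    revert s8; cases a 18 <;> cases a 2 <;> cases a 7 <;> simp
  have t13 : a 13 = ((a 2) ^^ (a 12)) := by
    revert s9; cases a 13 <;> cases a 2 <;> cases a 12 <;> simp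
  have t8 : a 8 = ((a 2) ^^ (a 17)) := by
    revert s10; cases a 8 <;> cases a 2 <;> cases a 17 <;> simp
  interval_cases d
  · exact z0.trans e0.symm
  · exact k0
  · exact k1
  · exact k1.trans t3.symm
  · exact k0.trans t4.symm
  · exact z0.trans s1.symm
  · exact k2
  · exact k3
  · change (Nat.xor (tt 18 (k + 1)) (tt 18 (k + 8))).testBit i = _
    rw [testBit_xor', k1, k8, t8]
  · change (Nat.xor (tt 18 k) (tt 18 (k + 7))).testBit i = _
    rw [testBit_xor', k0, k7, t9]
  · exact k4
  · exact k5
  · exact k6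
  · change (Nat.xor (tt 18 (k + 1)) (tt 18 (k + 6))).testBit i = _
    rw [testBit_xor', k1, k6, t13]
  · change (Nat.xor (tt 18 k) (tt 18 (k + 5))).testBit i = _
    rw [testBit_xor', k0, k5, t14]
  · exact k4.trans t15.symm
  · exact k7
  · exact k8
  · change (Nat.xor (tt 18 (k + 1)) (tt 18 (k + 3))).testBit i = _
    rw [testBit_xor', k1, k3, t18]
  · change (Nat.xor (tt 18 k) (tt 18 (k + 2))).testBit i = _
    rw [testBit_xor', k0, k2, t19]
  · exact z0.trans e20.symm
  · exact z0.trans e21.symm
  · exact z0.trans e22.symm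
  · exact z0.trans e23.symm
  · exact z0.trans e24.symm

/-- A symmetric normalised function vanishing at the free positions is zero. -/
theorem zero_of_free (a : ℕ → Bool) (ha : Normal a) (hs : Sym a)
    (h : ∀ l ∈ ([[1], [2], [6], [7], [10], [11], [12], [16], [17]] : List (List ℕ)),
      eqnB a l = false) : ∀ d, d < 25 → a d = false := by
  have k0 := h [1] (by decide)
  have k1 := h [2] (by decide)
  have k2 := h [6] (by decide)
  have k3 := h [7] (by decide)
  have k4 := h [10] (by decide)
  have k5 := h [11] (by decide)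
  have k6 := h [12] (by decide)
  have k7 := h [16] (by decide)
  have k8 := h [17] (by decide)
  have s1 := hs [5] (by decide)
  have s2 := hs [10, 15] (by decide)
  have s3 := hs [4, 1] (by decide)
  have s4 := hs [19, 1, 6] (by decide)
  have s5 := hs [14, 1, 11] (by decide)
  have s6 := hs [9, 1, 16] (by decide)
  have s7 := hs [3, 2] (by decide)
  have s8 := hs [18, 2, 7] (by decide)
  have s9 := hs [13, 2, 12] (by decide)
  have s10 := hs [8, 2, 17] (by decide)
  simp only [eqnB, List.foldr_cons, List.foldr_nil, Bool.xor_false]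
    at k0 k1 k2 k3 k4 k5 k6 k7 k8 s1 s2 s3 s4 s5 s6 s7 s8 s9 s10
  simp only [k0, k1, k2, k3, k4, k5, k6, k7, k8, Bool.xor_false, Bool.false_xor]
    at s2 s3 s4 s5 s6 s7 s8 s9 s10
  intro d hd
  have e0 := ha.1
  have e20 := ha.2 20 (by norm_num) (by norm_num)
  have e21 := ha.2 21 (by norm_num) (by norm_num)
  have e22 := ha.2 22 (by norm_num) (by norm_num)
  have e23 := ha.2 23 (by norm_num) (by norm_num)
  have e24 := ha.2 24 (by norm_num) (by norm_num)
  interval_cases d <;> assumption

theorem stepB_core (X Y D : List ℕ) (ws : List ℕ) (L : List (List ℕ)) (hL : ∀ l ∈ L, ∀ d ∈ l, d < 25)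
    (hX : X.length = 25) (hY : Y.length = 25)
    (hcase : (allN2 X Y (Tof X) (Tof Y) (ones 18)
      (Nat.lor (eqns X (ones 18) L) (Nat.lor (eqns Y (ones 18) L) (eqns D (ones 18) L))) ws
        == ones 18) = true)
    (a b c : ℕ → Bool) (i : ℕ) (hi : i < 2 ^ 18)
    (h : ∀ d, d < 25 → (X.getD d 0).testBit i = a d)
    (h' : ∀ d, d < 25 → (Y.getD d 0).testBit i = b d)
    (h'' : ∀ d, d < 25 → (D.getD d 0).testBit i = c d) :
    (∀ l ∈ L, eqnB a l = false) ∨ (∀ l ∈ L, eqnB b l = false) ∨ (∀ l ∈ L, eqnB c l = false) ∨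
      ∃ m ∈ ws, Bad2 a b m := by
  have ho : (ones 18).testBit i = true := testBit_ones hi
  have hall := beq_iff_eq.1 hcase
  have h1 : (allN2 X Y (Tof X) (Tof Y) (ones 18)
      (Nat.lor (eqns X (ones 18) L) (Nat.lor (eqns Y (ones 18) L) (eqns D (ones 18) L)))
        ws).testBit i = true := by
    rw [hall]; exact ho
  rcases allN2_testBit h h' _ _ _ _ (Tof_testBit hX h) (Tof_testBit hY h') ws h1 with h2 | h2
  · rw [testBit_or', testBit_or', Bool.or_eq_true, Bool.or_eq_true] at h2
    rcases h2 with h2 | h2 | h2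
    · exact Or.inl (eqns_testBit ho h _ hL h2)
    · exact Or.inr (Or.inl (eqns_testBit ho h' _ hL h2))
    · exact Or.inr (Or.inr (Or.inl (eqns_testBit ho h'' _ hL h2)))
  · exact Or.inr (Or.inr (Or.inr h2))

theorem zip_getD (X Y : List ℕ) (hX : X.length = 25) (hY : Y.length = 25) (d : ℕ) (hd : d < 25) :
    (X.zipWith Nat.xor Y).getD d 0 = Nat.xor (X.getD d 0) (Y.getD d 0) := by
  rw [List.getD_eq_getElem _ _ (by simp [hX, hY, hd]), List.getD_eq_getElem _ _ (by omega),
    List.getD_eq_getElem _ _ (by omega), List.getElem_zipWith]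

theorem stepB (a b : ℕ → Bool) (ha : Normal a) (hb : Normal b) (hsa : Sym a) (hsb : Sym b) :
    (∀ d, d < 25 → a d = false) ∨ (∀ d, d < 25 → b d = false) ∨ (∀ d, d < 25 → a d = b d) ∨
      ∃ m ∈ allWords, Bad2 a b m := by
  obtain ⟨i, hi, hk⟩ := exists_index (n := 18)
    (fun k => if k < 9 then a (fv.getD k 0) else b (fv.getD (k - 9) 0))
  have h : ∀ d, d < 25 → ((Ys 0).getD d 0).testBit i = a d := by
    apply Ys_testBit 0 a ha hsa
    intro j hj
    have := hk (0 + j) (by omega)
    rw [if_pos (by omega)] at this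
    rw [this, Nat.zero_add]
  have h' : ∀ d, d < 25 → ((Ys 9).getD d 0).testBit i = b d := by
    apply Ys_testBit 9 b hb hsb
    intro j hj
    have := hk (9 + j) (by omega)
    rw [if_neg (by omega)] at this
    rw [this, Nat.add_sub_cancel_left]
  have hl0 : (Ys 0).length = 25 := rfl
  have hl9 : (Ys 9).length = 25 := rfl
  have h'' : ∀ d, d < 25 → (((Ys 0).zipWith Nat.xor (Ys 9)).getD d 0).testBit i =
      (fun d => (a d) ^^ (b d)) d := by
    intro d hd
    rw [zip_getD _ _ hl0 hl9 d hd, testBit_xor', h d hd, h' d hd]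
  rcases stepB_core _ _ _ wordsB _ (by decide) hl0 hl9 caseB a b _ i hi h h' h'' with
    h2 | h2 | h3 | h2
  · left
    exact zero_of_free a ha hsa h2
  · right; left
    exact zero_of_free b hb hsb h2
  · right; right; left
    have hn : Normal (fun d => (a d) ^^ (b d)) := by
      refine ⟨by simp [ha.1, hb.1], ?_⟩
      intro d h1 h2
      simp [ha.2 d h1 h2, hb.2 d h1 h2]
    have hsum : Sym (fun d => (a d) ^^ (b d)) := by
      intro l hl
      have e : ∀ l : List ℕ, eqnB (fun d => (a d) ^^ (b d)) l = ((eqnB a l) ^^ (eqnB b l)) := by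
        intro l
        unfold eqnB
        induction l with
        | nil => rfl
        | cons x l ih =>
          simp only [List.foldr_cons, ih]
          cases a x <;> cases b x <;> simp
      rw [e, hsa l hl, hsb l hl]
      rfl
    have h4 := zero_of_free _ hn hsum h3
    intro d hd
    have := h4 d hd
    revert this
    cases a d <;> cases b d <;> simp
  · right; right; right
    obtain ⟨m, hm, h3⟩ := h2
    exact ⟨m, by unfold allWords; simp only [List.mem_append, hm, true_or, or_true], h3⟩

theorem valid_of_mem {m : ℕ} (hm : m ∈ allWords) : validW m = true :=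
  List.all_eq_true.1 allValid m hm

end Pool.Agent.Work.MP_9cc08e_co
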